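import Pool.Agent.Helper47.EX.Defs
import Pool.Agent.Helper36.DC.AP
import Pool.Agent.Helper36.DC.Windows
import Pool.Agent.Helper36.DC.CountLemmas
import Pool.Agent.Helper36.DC.GoodOf

/-!
# Windows of linear size in every well overlapping pair of cells
-/

set_option autoImplicit false

namespace Pool.Agent.Helper36.EX

open Pool.Agent.Helper36.DC Pool.Agent.Helper47.EX Finset

/-- Second moment of the sum of digits along a piece of an arithmetic progression. -/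
theorem sub_moment (b A e L K G : ℕ) (hb : 2 ≤ b) (hA : Nat.Coprime A b) (hA0 : 0 < A)
    (hAK : A ≤ b ^ K) (hK : b ^ K * A ≤ b ^ (G + 1)) (hAG : A ≤ b ^ G)
    (hL : ∀ i < L, A * i + e < b ^ G) :
    3 * ∑ i ∈ range L, (2 * (s b (A * i + e) : ℤ) - ((b : ℤ) - 1) * ((G : ℤ) + 1)) ^ 2
      ≤ 4 * ((b : ℤ) ^ 2 - 1) * ((b ^ (G + 1) / A : ℕ) : ℤ) * (b * ((G : ℤ) + 1)) := by
  have hb0 : 0 < b := by omega
  have hbz : (2 : ℤ) ≤ (b : ℤ) := by exact_mod_cast hb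
  set Q := b ^ (G + 1) / A with hQ
  set c := e % A with hc
  set k := e / A with hk
  have hcA : c < A := Nat.mod_lt _ hA0
  have he : e = A * k + c := (Nat.div_add_mod e A).symm
  have hbG : b ^ (G + 1) = b * b ^ G := by rw [pow_succ, mul_comm]
  have hbG2 : 2 * b ^ G ≤ b * b ^ G := Nat.mul_le_mul_right _ hb
  set F : ℕ → ℤ := fun q => (2 * (s b (A * q + c) : ℤ) - ((b : ℤ) - 1) * ((G : ℤ) + 1)) ^ 2 with hF
  have hF0 : ∀ q, 0 ≤ F q := fun q => sq_nonneg _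
  have hKG : K ≤ G + 1 := by
    have : b ^ K ≤ b ^ (G + 1) := le_trans (Nat.le_mul_of_pos_right _ hA0) hK
    exact (Nat.pow_le_pow_iff_right (by omega)).mp this
  obtain ⟨K', hK'⟩ := Nat.exists_eq_add_of_le hKG
  have hAQ : A * Q ≤ b ^ (G + 1) := Nat.mul_div_le _ _
  have hAQ2 : b ^ (G + 1) < A * Q + A := by
    have := Nat.lt_mul_div_succ (b ^ (G + 1)) hA0
    calc b ^ (G + 1) < A * (b ^ (G + 1) / A + 1) := this
      _ = A * Q + A := by rw [hQ]; ring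
  have hmom := ap_moment b A c Q K K' hb hA hcA hAK
    ((Nat.le_div_iff_mul_le hA0).2 hK) (by rw [← hK']; exact hAQ)
    (by
      rw [← hK', hbG]
      apply Nat.mul_le_mul_left
      omega)
  have hsub : ∑ i ∈ range L, (2 * (s b (A * i + e) : ℤ) - ((b : ℤ) - 1) * ((G : ℤ) + 1)) ^ 2
      ≤ ∑ q ∈ range Q, F q := by
    rcases Nat.eq_zero_or_pos L with h0 | h0
    · rw [h0]
      simp only [range_zero, sum_empty]
      exact Finset.sum_nonneg fun q _ => hF0 q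
    · have hkL : k + L ≤ Q := by
        rw [hQ, Nat.le_div_iff_mul_le hA0]
        have h1 := hL (L - 1) (by omega)
        obtain ⟨L', rfl⟩ : ∃ L', L = L' + 1 := ⟨L - 1, by omega⟩
        rw [Nat.add_sub_cancel] at h1
        have h2 : (k + (L' + 1)) * A = A * L' + A * k + A := by ring
        omega
      calc ∑ i ∈ range L, (2 * (s b (A * i + e) : ℤ) - ((b : ℤ) - 1) * ((G : ℤ) + 1)) ^ 2
          = ∑ i ∈ range L, F (k + i) := by
            apply Finset.sum_congr rfl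
            intro i _
            rw [hF]
            have : A * i + e = A * (k + i) + c := by rw [he]; ring
            simp only [this]
        _ = ∑ q ∈ (range L).map ⟨fun i => k + i, fun x y h => Nat.add_left_cancel h⟩, F q := by
            rw [Finset.sum_map]
            rfl
        _ ≤ ∑ q ∈ range Q, F q := by
            apply Finset.sum_le_sum_of_subset_of_nonneg
            · intro q hq
              rw [Finset.mem_map] at hq
              obtain ⟨i, hi, rfl⟩ := hq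
              rw [Finset.mem_range] at hi ⊢
              show k + i < Q
              omega
            · intro q _ _
              exact hF0 q
  have hKK : (K : ℤ) + (K' : ℤ) = (G : ℤ) + 1 := by exact_mod_cast hK'.symm
  rw [hKK] at hmom
  have hfin : (K : ℤ) + b * K' ≤ b * ((G : ℤ) + 1) := by
    rw [← hKK]
    nlinarith [Int.natCast_nonneg K]
  have hpos : (0 : ℤ) ≤ 4 * ((b : ℤ) ^ 2 - 1) * (Q : ℤ) := by
    have : (0 : ℤ) ≤ (b : ℤ) ^ 2 - 1 := by nlinarith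
    positivity
  calc 3 * ∑ i ∈ range L, (2 * (s b (A * i + e) : ℤ) - ((b : ℤ) - 1) * ((G : ℤ) + 1)) ^ 2
      ≤ 3 * ∑ q ∈ range Q, F q := by linarith
    _ ≤ 4 * ((b : ℤ) ^ 2 - 1) * Q * ((K : ℤ) + b * K') := hmom
    _ ≤ 4 * ((b : ℤ) ^ 2 - 1) * Q * (b * ((G : ℤ) + 1)) := mul_le_mul_of_nonneg_left hfin hpos

/-- Chebyshev. -/
theorem cheb (L δ : ℕ) (X : ℕ → ℤ) :
    (((range L).filter (fun i => (δ : ℤ) ≤ |X i|)).card : ℤ) * (δ : ℤ) ^ 2
      ≤ ∑ i ∈ range L, X i ^ 2 := by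
  calc (((range L).filter (fun i => (δ : ℤ) ≤ |X i|)).card : ℤ) * (δ : ℤ) ^ 2
      = ∑ i ∈ (range L).filter (fun i => (δ : ℤ) ≤ |X i|), (δ : ℤ) ^ 2 := by
        rw [Finset.sum_const, nsmul_eq_mul]
    _ ≤ ∑ i ∈ (range L).filter (fun i => (δ : ℤ) ≤ |X i|), X i ^ 2 := by
        apply Finset.sum_le_sum
        intro i hi
        rw [Finset.mem_filter] at hi
        have h1 : (δ : ℤ) ^ 2 ≤ |X i| ^ 2 := pow_le_pow_left₀ (by positivity) hi.2 2
        rwa [sq_abs] at h1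
    _ ≤ ∑ i ∈ range L, X i ^ 2 := by
        apply Finset.sum_le_sum_of_subset_of_nonneg (Finset.filter_subset _ _)
        intro i _ _
        exact sq_nonneg _

/-- A residue `w` with `3 ^ u * w` congruent to `p` modulo `2 ^ a`. -/
theorem exists_res (u a p : ℕ) (hp : p < 2 ^ a) :
    ∃ w : ℕ, w < 2 ^ a ∧ (3 ^ u * w) % 2 ^ a = p := by
  have h1 := crt_card a 0 0 u (fun W => W = p) (fun _ => True)
  have h2 : ((range (2 ^ a)).filter (fun W => W = p)).card = 1 := by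
    rw [Finset.card_eq_one]
    refine ⟨p, ?_⟩
    ext x
    rw [Finset.mem_filter, Finset.mem_range, Finset.mem_singleton]
    constructor
    · exact fun h => h.2
    · rintro rfl
      exact ⟨hp, rfl⟩
  rw [h2] at h1
  have h3 : 0 < ((range (2 ^ a * 3 ^ 0)).filter
      (fun w => (3 ^ u * w) % 2 ^ a = p ∧ True)).card := by
    refine lt_of_lt_of_le ?_ h1
    simp
  obtain ⟨w, hw⟩ := Finset.card_pos.1 h3
  rw [Finset.mem_filter, Finset.mem_range] at hw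
  exact ⟨w, by simpa using hw.1, hw.2.1⟩

theorem s_two_pred (k : ℕ) : s 2 (2 ^ k - 1) = k := by
  induction k with
  | zero => simp [s_zero]
  | succ k ih =>
    have h1 : 0 < 2 ^ k := by positivity
    have h2 : 2 ^ (k + 1) - 1 = 2 * (2 ^ k - 1) + 1 := by
      rw [pow_succ]
      omega
    rw [h2, s_mul_add 2 _ 1 le_rfl (by norm_num), ih]

/-- The core of the argument. -/
theorem core (u a G H Y Z k δ : ℕ) (t : ℤ) (hu : 160000 ≤ u)
    (h1 : 3 ^ (u + H) ≤ 2 ^ (u + a + G)) (h2 : 2 ^ (u + a + G) < 3 ^ (u + H + 1))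
    (hOK : OK (u + a + G) (u + H) Y Z) (hk : k ≤ a)
    (hkt : |2 * (k : ℤ) + G - 2 * H - 2 * t| ≤ 4) (hδ : δ + 5 ≤ u / 625)
    (hG : 4 * u ≤ G) (hH : 6 ^ (u + a) ≤ 3 ^ H)
    (hR : 84 * (6 ^ u * 2 ^ a) ≤ 2 ^ (u + a + G))
    (hδ2 : 784 * (G + H + 2) < δ ^ 2) :
    ∃ n : ℕ, n / 2 ^ (u + a + G) = Y ∧ n / 3 ^ (u + H) = Z ∧
        (s 2 (n % 2 ^ (u + a + G)) : ℤ) - (s 3 (n % 3 ^ (u + H)) : ℤ) = t := by
  obtain ⟨hO1, hO2⟩ := hOK
  set g := u + a + G with hg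
  set h := u + H with hh
  set D := 6 ^ u * 2 ^ a with hD
  have hDpos : 0 < D := by positivity
  have hD6 : (6 : ℕ) ^ u = 2 ^ u * 3 ^ u := by rw [← Nat.mul_pow]
  have hg2 : 2 ^ g = 2 ^ (u + a) * 2 ^ G := by rw [hg, pow_add]
  have hh3 : 3 ^ h = 3 ^ u * 3 ^ H := by rw [hh, pow_add]
  have hDa : D = 2 ^ (u + a) * 3 ^ u := by rw [hD, hD6, pow_add]; ring
  have hDb : D = 3 ^ u * 2 ^ (u + a) := by rw [hDa]; ring
  have h3s : 3 ^ (h + 1) = 3 * 3 ^ h := by rw [pow_succ, mul_comm]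
  have hkp : 2 ^ k - 1 < 2 ^ a := by
    have e1 : 2 ^ k ≤ 2 ^ a := Nat.pow_le_pow_right (by norm_num) hk
    have e2 : 0 < 2 ^ k := by positivity
    omega
  obtain ⟨w, hw, hwp⟩ := exists_res u a (2 ^ k - 1) hkp
  set c2 := (3 ^ u * w) / 2 ^ a with hc2
  have hc2w : 2 ^ a * c2 + (2 ^ k - 1) = 3 ^ u * w := by
    rw [hc2, ← hwp]
    exact Nat.div_add_mod _ _
  -- the interval
  set lo := max (2 ^ g * Y) (3 ^ h * Z) with hlo
  set hi := min (2 ^ g * (Y + 1)) (3 ^ h * (Z + 1)) with hhi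
  have hlo1 : 2 ^ g * Y ≤ lo := le_max_left _ _
  have hlo2 : 3 ^ h * Z ≤ lo := le_max_right _ _
  have hhi1 : hi ≤ 2 ^ g * (Y + 1) := min_le_left _ _
  have hhi2 : hi ≤ 3 ^ h * (Z + 1) := min_le_right _ _
  have hlen : 6 * lo + 2 ^ g ≤ 6 * hi := by
    have e1 : 2 ^ g * (Y + 1) = 2 ^ g * Y + 2 ^ g := by ring
    have e2 : 3 ^ h * (Z + 1) = 3 ^ h * Z + 3 ^ h := by ring
    rcases max_choice (2 ^ g * Y) (3 ^ h * Z) with hm | hm <;>
    rcases min_choice (2 ^ g * (Y + 1)) (3 ^ h * (Z + 1)) with hn | hn <;>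
    rw [hlo, hhi, hm, hn] <;> omega
  set q0 := lo / D + 1 with hq0
  have hq0a : lo ≤ D * q0 := by
    have := Nat.lt_mul_div_succ lo hDpos
    rw [hq0]; exact this.le
  have hq0b : D * q0 ≤ lo + D := by
    rw [hq0, Nat.mul_add, Nat.mul_one]
    exact Nat.add_le_add_right (Nat.mul_div_le _ _) _
  set L := hi / D - q0 with hL
  have hLq : ∀ i < L, D * (q0 + i + 1) ≤ hi := by
    intro i hi'
    have e1 : q0 + i + 1 ≤ hi / D := by omega
    exact (Nat.mul_le_mul_left D e1).trans (Nat.mul_div_le _ _)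
  have hLlen : hi ≤ D * L + lo + 2 * D := by
    have e1 := Nat.lt_mul_div_succ hi hDpos
    have e2 : hi / D + 1 ≤ L + q0 + 1 := by omega
    have e3 : D * (hi / D + 1) ≤ D * (L + q0 + 1) := Nat.mul_le_mul_left _ e2
    have e4 : D * (L + q0 + 1) = D * L + D * q0 + D := by ring
    omega
  have hL7 : 2 ^ g ≤ 7 * (D * L) := by omega
  -- the base two values
  have hY0 : 2 ^ G * Y ≤ 3 ^ u * q0 := by
    have e1 : 2 ^ (u + a) * (2 ^ G * Y) ≤ 2 ^ (u + a) * (3 ^ u * q0) := by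
      calc 2 ^ (u + a) * (2 ^ G * Y) = 2 ^ g * Y := by rw [hg2]; ring
        _ ≤ D * q0 := hlo1.trans hq0a
        _ = _ := by rw [hDa]; ring
    exact Nat.le_of_mul_le_mul_left e1 (by positivity)
  have hZ0 : 3 ^ H * Z ≤ 2 ^ (u + a) * q0 := by
    have e1 : 3 ^ u * (3 ^ H * Z) ≤ 3 ^ u * (2 ^ (u + a) * q0) := by
      calc 3 ^ u * (3 ^ H * Z) = 3 ^ h * Z := by rw [hh3]; ring
        _ ≤ D * q0 := hlo2.trans hq0a
        _ = _ := by rw [hDb]; ring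
    exact Nat.le_of_mul_le_mul_left e1 (by positivity)
  obtain ⟨f2, hf2⟩ := Nat.exists_eq_add_of_le hY0
  obtain ⟨f3, hf3⟩ := Nat.exists_eq_add_of_le hZ0
  set e2 := f2 + c2 with he2
  set e3 := f3 + 2 ^ u * w with he3
  -- decomposition of `n`
  have hn2 : ∀ i r : ℕ, 6 ^ u * (w + 2 ^ a * (q0 + i)) + r
      = 2 ^ g * Y + (2 ^ u * (2 ^ a * (3 ^ u * i + e2) + (2 ^ k - 1)) + r) := by
    intro i r
    have e4 : 2 ^ u * (2 ^ a * (3 ^ u * i + e2) + (2 ^ k - 1))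
        = 2 ^ u * (2 ^ a * (3 ^ u * i + f2)) + 2 ^ u * (2 ^ a * c2 + (2 ^ k - 1)) := by
      rw [he2]; ring
    rw [e4, hc2w]
    have e5 : 2 ^ g * Y + (2 ^ u * (2 ^ a * (3 ^ u * i + f2)) + 2 ^ u * (3 ^ u * w) + r)
        = 2 ^ (u + a) * (2 ^ G * Y + f2) + 2 ^ (u + a) * (3 ^ u * i) + 2 ^ u * (3 ^ u * w) + r := by
      rw [hg2, pow_add 2 u a]; ring
    rw [e5, ← hf2, hD6, pow_add]
    ring
  have hn3 : ∀ i r : ℕ, 6 ^ u * (w + 2 ^ a * (q0 + i)) + r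
      = 3 ^ h * Z + (3 ^ u * (2 ^ (u + a) * i + e3) + r) := by
    intro i r
    have e5 : 3 ^ h * Z + (3 ^ u * (2 ^ (u + a) * i + e3) + r)
        = 3 ^ u * (3 ^ H * Z + f3) + 3 ^ u * (2 ^ (u + a) * i + 2 ^ u * w) + r := by
      rw [he3, hh3]; ring
    rw [e5, ← hf3, hD6, pow_add]
    ring
  have hnhi : ∀ i < L, ∀ r < 2 ^ u, 6 ^ u * (w + 2 ^ a * (q0 + i)) + r < hi := by
    intro i hi' r hr
    have e1 : r < 6 ^ u := lt_of_lt_of_le hr (Nat.pow_le_pow_left (by norm_num) u)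
    have e4 : 6 ^ u * (w + 1) ≤ 6 ^ u * 2 ^ a := Nat.mul_le_mul_left _ hw
    have e5 := hLq i hi'
    have e6 : D * (q0 + i + 1) = 6 ^ u * (2 ^ a * (q0 + i)) + 6 ^ u * 2 ^ a := by
      rw [hD]; ring
    have e7 : 6 ^ u * (w + 2 ^ a * (q0 + i)) = 6 ^ u * w + 6 ^ u * (2 ^ a * (q0 + i)) := by ring
    have e8 : 6 ^ u * (w + 1) = 6 ^ u * w + 6 ^ u := by ring
    omega
  have hx : ∀ i < L, ∀ r < 2 ^ u,
      2 ^ u * (2 ^ a * (3 ^ u * i + e2) + (2 ^ k - 1)) + r < 2 ^ g := by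
    intro i hi' r hr
    have e1 := hnhi i hi' r hr
    rw [hn2 i r] at e1
    have e4 : 2 ^ g * (Y + 1) = 2 ^ g * Y + 2 ^ g := by ring
    omega
  have hy : ∀ i < L, ∀ r < 2 ^ u, 3 ^ u * (2 ^ (u + a) * i + e3) + r < 3 ^ h := by
    intro i hi' r hr
    have e1 := hnhi i hi' r hr
    rw [hn3 i r] at e1
    have e4 : 3 ^ h * (Z + 1) = 3 ^ h * Z + 3 ^ h := by ring
    omega
  have hV2 : ∀ i < L, 3 ^ u * i + e2 < 2 ^ G := by
    intro i hi'
    have e1 := hx i hi' 0 (by positivity)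
    have e4 : 2 ^ (u + a) * (3 ^ u * i + e2) < 2 ^ (u + a) * 2 ^ G := by
      calc 2 ^ (u + a) * (3 ^ u * i + e2) = 2 ^ u * (2 ^ a * (3 ^ u * i + e2)) := by
            rw [pow_add]; ring
        _ ≤ 2 ^ u * (2 ^ a * (3 ^ u * i + e2) + (2 ^ k - 1)) :=
            Nat.mul_le_mul_left _ (Nat.le_add_right _ _)
        _ < 2 ^ g := by omega
        _ = _ := hg2
    exact Nat.lt_of_mul_lt_mul_left e4
  have hV3 : ∀ i < L, 2 ^ (u + a) * i + e3 < 3 ^ H := by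
    intro i hi'
    have e1 := hy i hi' 0 (by positivity)
    have e4 : 3 ^ u * (2 ^ (u + a) * i + e3) < 3 ^ u * 3 ^ H := by
      calc 3 ^ u * (2 ^ (u + a) * i + e3) < 3 ^ h := by omega
        _ = _ := hh3
    exact Nat.lt_of_mul_lt_mul_left e4
  -- the moments
  have hA2 : (3 : ℕ) ^ u ≤ 2 ^ (2 * u) := by
    rw [pow_mul]; exact Nat.pow_le_pow_left (by norm_num) u
  have hm2 := sub_moment 2 (3 ^ u) e2 L (2 * u) G le_rfl
    (Nat.Coprime.pow_left u (by norm_num)) (by positivity) hA2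
    (by
      calc 2 ^ (2 * u) * 3 ^ u ≤ 2 ^ (2 * u) * 2 ^ (2 * u) := Nat.mul_le_mul_left _ hA2
        _ = 2 ^ (4 * u) := by rw [← pow_add]; congr 1; omega
        _ ≤ 2 ^ (G + 1) := Nat.pow_le_pow_right (by norm_num) (by omega))
    (hA2.trans (Nat.pow_le_pow_right (by norm_num) (by omega))) hV2
  have hA3 : (2 : ℕ) ^ (u + a) ≤ 3 ^ (u + a) := Nat.pow_le_pow_left (by norm_num) _
  have hm3 := sub_moment 3 (2 ^ (u + a)) e3 L (u + a) H (by norm_num)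
    (Nat.Coprime.pow_left _ (by norm_num)) (by positivity) hA3
    (by
      calc 3 ^ (u + a) * 2 ^ (u + a) = 6 ^ (u + a) := by rw [← Nat.mul_pow]
        _ ≤ 3 ^ H := hH
        _ ≤ 3 ^ (H + 1) := Nat.pow_le_pow_right (by norm_num) (by omega))
    ((Nat.pow_le_pow_left (by norm_num) _).trans hH) hV3
  set X2 : ℕ → ℤ := fun i => 2 * (s 2 (3 ^ u * i + e2) : ℤ) - ((2 : ℕ) - 1) * ((G : ℤ) + 1)
    with hX2
  set X3 : ℕ → ℤ := fun i => 2 * (s 3 (2 ^ (u + a) * i + e3) : ℤ)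
    - ((3 : ℕ) - 1) * ((H : ℤ) + 1) with hX3
  have hc2' := cheb L δ X2
  have hc3' := cheb L δ X3
  set B2 := (range L).filter (fun i => (δ : ℤ) ≤ |X2 i|) with hB2
  set B3 := (range L).filter (fun i => (δ : ℤ) ≤ |X3 i|) with hB3
  set Q2 := 2 ^ (G + 1) / 3 ^ u with hQ2
  set Q3 := 3 ^ (H + 1) / 2 ^ (u + a) with hQ3
  have hDQ2 : D * Q2 ≤ 2 * 2 ^ g := by
    calc D * Q2 = 2 ^ (u + a) * (3 ^ u * Q2) := by rw [hDa]; ring
      _ ≤ 2 ^ (u + a) * 2 ^ (G + 1) := Nat.mul_le_mul_left _ (Nat.mul_div_le _ _)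
      _ = 2 * 2 ^ g := by rw [hg2, pow_succ]; ring
  have hDQ3 : D * Q3 ≤ 3 * 2 ^ g := by
    calc D * Q3 = 3 ^ u * (2 ^ (u + a) * Q3) := by rw [hDb]; ring
      _ ≤ 3 ^ u * 3 ^ (H + 1) := Nat.mul_le_mul_left _ (Nat.mul_div_le _ _)
      _ = 3 * 3 ^ h := by rw [hh3, pow_succ]; ring
      _ ≤ 3 * 2 ^ g := Nat.mul_le_mul_left _ h1
  have hb2 : B2.card * δ ^ 2 ≤ 8 * Q2 * (G + 1) := by
    have e4 : (3 : ℤ) * ((B2.card : ℤ) * (δ : ℤ) ^ 2) ≤ 3 * (8 * Q2 * ((G : ℤ) + 1)) := by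
      calc (3 : ℤ) * ((B2.card : ℤ) * (δ : ℤ) ^ 2) ≤ 3 * ∑ i ∈ range L, X2 i ^ 2 := by linarith
        _ ≤ _ := hm2
        _ = 3 * (8 * Q2 * ((G : ℤ) + 1)) := by push_cast; ring
    have e5 := le_of_mul_le_mul_left e4 (by norm_num)
    exact_mod_cast e5
  have hb3 : B3.card * δ ^ 2 ≤ 32 * Q3 * (H + 1) := by
    have e4 : (3 : ℤ) * ((B3.card : ℤ) * (δ : ℤ) ^ 2) ≤ 3 * (32 * Q3 * ((H : ℤ) + 1)) := by
      calc (3 : ℤ) * ((B3.card : ℤ) * (δ : ℤ) ^ 2) ≤ 3 * ∑ i ∈ range L, X3 i ^ 2 := by linarith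
        _ ≤ _ := hm3
        _ = 3 * (32 * Q3 * ((H : ℤ) + 1)) := by push_cast; ring
    have e5 := le_of_mul_le_mul_left e4 (by norm_num)
    exact_mod_cast e5
  have hbad : B2.card + B3.card < L := by
    by_contra hcon
    push Not at hcon
    have hLpos : 0 < D * L := by
      have : 0 < 2 ^ g := by positivity
      omega
    have e4 : D * L * δ ^ 2 ≤ D * (B2.card + B3.card) * δ ^ 2 :=
      Nat.mul_le_mul_right _ (Nat.mul_le_mul_left _ hcon)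
    have e5 : D * (B2.card + B3.card) * δ ^ 2
        = D * (B2.card * δ ^ 2) + D * (B3.card * δ ^ 2) := by ring
    have e6 : D * (B2.card * δ ^ 2) ≤ D * (8 * Q2 * (G + 1)) := Nat.mul_le_mul_left _ hb2
    have e7 : D * (B3.card * δ ^ 2) ≤ D * (32 * Q3 * (H + 1)) := Nat.mul_le_mul_left _ hb3
    have e8 : D * (8 * Q2 * (G + 1)) ≤ 16 * 2 ^ g * (G + 1) := by
      calc D * (8 * Q2 * (G + 1)) = 8 * (G + 1) * (D * Q2) := by ring
        _ ≤ 8 * (G + 1) * (2 * 2 ^ g) := Nat.mul_le_mul_left _ hDQ2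
        _ = _ := by ring
    have e9 : D * (32 * Q3 * (H + 1)) ≤ 96 * 2 ^ g * (H + 1) := by
      calc D * (32 * Q3 * (H + 1)) = 32 * (H + 1) * (D * Q3) := by ring
        _ ≤ 32 * (H + 1) * (3 * 2 ^ g) := Nat.mul_le_mul_left _ hDQ3
        _ = _ := by ring
    have e10 : 16 * 2 ^ g * (G + 1) ≤ 112 * 2 ^ g * (G + 1) := by
      apply Nat.mul_le_mul_right
      apply Nat.mul_le_mul_right
      norm_num
    have e11 : 96 * 2 ^ g * (H + 1) ≤ 112 * 2 ^ g * (H + 1) := by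
      apply Nat.mul_le_mul_right
      apply Nat.mul_le_mul_right
      norm_num
    have e12 : 112 * 2 ^ g * (G + 1) + 112 * 2 ^ g * (H + 1) = 112 * (G + H + 2) * 2 ^ g := by
      ring
    have e13 : 112 * (G + H + 2) * 2 ^ g ≤ 112 * (G + H + 2) * (7 * (D * L)) :=
      Nat.mul_le_mul_left _ hL7
    have e14 : 112 * (G + H + 2) * (7 * (D * L)) = D * L * (784 * (G + H + 2)) := by ring
    have e15 : D * L * (784 * (G + H + 2)) < D * L * δ ^ 2 :=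
      Nat.mul_lt_mul_of_pos_left hδ2 hLpos
    omega
  obtain ⟨i, hiL, hi2, hi3⟩ : ∃ i < L, |X2 i| < δ ∧ |X3 i| < δ := by
    by_contra hcon
    push Not at hcon
    have e4 : range L ⊆ B2 ∪ B3 := by
      intro i hi'
      rw [Finset.mem_union, hB2, hB3, Finset.mem_filter, Finset.mem_filter]
      by_cases e5 : (δ : ℤ) ≤ |X2 i|
      · exact Or.inl ⟨hi', e5⟩
      · exact Or.inr ⟨hi', hcon i (Finset.mem_range.1 hi') (not_le.1 e5)⟩
    have e5 := Finset.card_le_card e4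
    rw [Finset.card_range] at e5
    have e6 := Finset.card_union_le B2 B3
    omega
  -- the repair
  set S2 := s 2 (3 ^ u * i + e2) with hS2
  set S3 := s 3 (2 ^ (u + a) * i + e3) with hS3
  have hr0 : |t - ((S2 : ℤ) + k - S3)| ≤ ((u / 625 : ℕ) : ℤ) := by
    simp only [hX2, hX3] at hi2 hi3
    rw [← hS2] at hi2
    rw [← hS3] at hi3
    push_cast at hi2 hi3
    rw [abs_lt] at hi2 hi3
    rw [abs_le] at hkt ⊢
    obtain ⟨a1, a2⟩ := hi2
    obtain ⟨a3, a4⟩ := hi3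
    obtain ⟨a5, a6⟩ := hkt
    constructor <;> omega
  obtain ⟨r, hr, hdr⟩ := windows u hu _ hr0
  have hr3 : r < 3 ^ u := lt_of_lt_of_le hr (Nat.pow_le_pow_left (by norm_num) u)
  refine ⟨6 ^ u * (w + 2 ^ a * (q0 + i)) + r, ?_, ?_, ?_⟩
  · rw [hn2, Nat.mul_add_div (by positivity), Nat.div_eq_of_lt (hx i hiL r hr), add_zero]
  · rw [hn3, Nat.mul_add_div (by positivity), Nat.div_eq_of_lt (hy i hiL r hr), add_zero]
  · have e4 : (6 ^ u * (w + 2 ^ a * (q0 + i)) + r) % 2 ^ g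
        = 2 ^ u * (2 ^ a * (3 ^ u * i + e2) + (2 ^ k - 1)) + r := by
      rw [hn2, Nat.mul_add_mod, Nat.mod_eq_of_lt (hx i hiL r hr)]
    have e5 : (6 ^ u * (w + 2 ^ a * (q0 + i)) + r) % 3 ^ h
        = 3 ^ u * (2 ^ (u + a) * i + e3) + r := by
      rw [hn3, Nat.mul_add_mod, Nat.mod_eq_of_lt (hy i hiL r hr)]
    rw [e4, e5, s_concat 2 u _ r le_rfl hr, s_concat 2 a _ _ le_rfl hkp, s_two_pred,
      s_concat 3 u _ r (by norm_num) hr3, ← hS2, ← hS3]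
    unfold d at hdr
    push_cast
    linarith

theorem six_three (n : ℕ) : 6 ^ n ≤ 3 ^ (5 * (n / 3 + 1)) := by
  calc 6 ^ n ≤ 6 ^ (3 * (n / 3 + 1)) := Nat.pow_le_pow_right (by norm_num) (by omega)
    _ = (6 ^ 3) ^ (n / 3 + 1) := by rw [pow_mul]
    _ ≤ (3 ^ 5) ^ (n / 3 + 1) := Nat.pow_le_pow_left (by norm_num) _
    _ = 3 ^ (5 * (n / 3 + 1)) := by rw [← pow_mul]

theorem hh_lower (g : ℕ) : 5 * (g / 8) ≤ hh g := by
  have h1 : 2 ^ g < 3 ^ (hh g + 1) := Nat.lt_pow_succ_log_self (by norm_num) _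
  have h2 : 3 ^ (5 * (g / 8)) ≤ 2 ^ g := by
    calc 3 ^ (5 * (g / 8)) = (3 ^ 5) ^ (g / 8) := by rw [pow_mul]
      _ ≤ (2 ^ 8) ^ (g / 8) := Nat.pow_le_pow_left (by norm_num) _
      _ = 2 ^ (8 * (g / 8)) := by rw [← pow_mul]
      _ ≤ 2 ^ g := Nat.pow_le_pow_right (by norm_num) (Nat.mul_div_le _ _)
  have h3 : 3 ^ (5 * (g / 8)) < 3 ^ (hh g + 1) := lt_of_le_of_lt h2 h1
  have h4 := (Nat.pow_lt_pow_iff_right (by norm_num : 1 < 3)).mp h3
  omega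

theorem local_windows : ∃ c : ℝ, 0 < c ∧ ∃ g0 : ℕ, ∀ g : ℕ, g0 ≤ g → ∀ Y Z : ℕ,
    OK g (hh g) Y Z → ∀ t : ℤ, |(t : ℝ)| ≤ c * g →
      ∃ n : ℕ, n / 2 ^ g = Y ∧ n / 3 ^ hh g = Z ∧
        (s 2 (n % 2 ^ g) : ℤ) - (s 3 (n % 3 ^ hh g) : ℤ) = t := by
  refine ⟨1 / 100, by norm_num, 100000000000000, ?_⟩
  intro g hg Y Z hOK t ht
  have ht1 : 100 * |t| ≤ (g : ℤ) := by
    have : (100 : ℝ) * |(t : ℝ)| ≤ g := by linarith
    exact_mod_cast this
  have ht2 := abs_le.1 (show |t| ≤ (g : ℤ) / 100 by omega)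
  obtain ⟨t1, t2⟩ := ht2
  have h1 : 3 ^ hh g ≤ 2 ^ g := Nat.pow_log_le_self 3 (by positivity)
  have h2 : 2 ^ g < 3 ^ (hh g + 1) := Nat.lt_pow_succ_log_self (by norm_num) _
  have h3 := Good.two_three h1
  have h4 := hh_lower g
  obtain ⟨h, hhe⟩ : ∃ h, h = hh g := ⟨_, rfl⟩
  rw [← hhe] at h1 h2 h3 h4 hOK ⊢
  obtain ⟨u, hu⟩ : ∃ u, u = g / 100 := ⟨_, rfl⟩
  obtain ⟨a, ha⟩ : ∃ a, a = g / 3 := ⟨_, rfl⟩
  obtain ⟨G, hG⟩ : ∃ G, g = u + a + G := ⟨g - (u + a), by omega⟩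
  obtain ⟨H, hH⟩ : ∃ H, h = u + H := ⟨h - u, by omega⟩
  obtain ⟨k, hk⟩ : ∃ k : ℕ, (k : ℤ) = (2 * t + 2 * H - G) / 2 :=
    ⟨((2 * t + 2 * (H : ℤ) - G) / 2).toNat, by omega⟩
  obtain ⟨δ, hδ⟩ : ∃ δ : ℕ, δ = u / 625 - 5 := ⟨_, rfl⟩
  rw [hG, hH] at h1 hOK ⊢
  rw [hG, hH] at h2
  refine core u a G H Y Z k δ t (by omega) h1 h2 hOK (by omega) ?_ (by omega) (by omega) ?_ ?_ ?_
  · rw [abs_le]
    constructor <;> omega
  · exact (six_three _).trans (Nat.pow_le_pow_right (by norm_num) (by omega))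
  · calc 84 * (6 ^ u * 2 ^ a) ≤ 2 ^ 7 * (8 ^ u * 2 ^ a) := by
          apply Nat.mul_le_mul (by norm_num)
          exact Nat.mul_le_mul_right _ (Nat.pow_le_pow_left (by norm_num) u)
      _ = 2 ^ (7 + (3 * u + a)) := by
          rw [pow_add 2 7, pow_add 2 (3 * u), pow_mul]
          norm_num
      _ ≤ 2 ^ (u + a + G) := Nat.pow_le_pow_right (by norm_num) (by omega)
  · have e1 : G + H + 2 ≤ 2 * g := by omega
    have e2 : g ≤ 100000 * δ := by omega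
    have e3 : 1000000000 ≤ δ := by omega
    nlinarith

end Pool.Agent.Helper36.EX
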